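import Pool.Agent.Lib.MP_b1a3a4_al.MVS.HO.Iface

/-! # Module CARR (10.2): finite carriers; helper65 -/

set_option autoImplicit false

namespace Pool.Agent.Lib.MP_b1a3a4_al.MVS.HO.H65

variable {G : Type} [Group G]

/-- the relations of the universal cocycle on `Z` -/
def rels (E Z : Set G) : Set (FreeGroup (G × G)) :=
  {r | ∃ g ∈ Z, ∃ h ∈ Z, ∃ k ∈ Z, g⁻¹ * h ∈ E ∧ h⁻¹ * k ∈ E ∧ g⁻¹ * k ∈ E ∧
    r = FreeGroup.of (g, h) * FreeGroup.of (h, k) * (FreeGroup.of (g, k))⁻¹}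

lemma rels_mono {E Z Z' : Set G} (h : Z ⊆ Z') : rels E Z ⊆ rels E Z' := by
  rintro r ⟨g, hg, a, ha, k, hk, h1, h2, h3, rfl⟩
  exact ⟨g, h hg, a, h ha, k, h hk, h1, h2, h3, rfl⟩

lemma hol_map {H H' : Type} [Group H] [Group H'] (φ : H →* H') (c : G → G → H) (g : G)
    (w : List G) : hol (fun x y => φ (c x y)) g w = φ (hol c g w) := by
  induction w generalizing g with
  | nil => simp
  | cons x w ih => simp [ih]

/-- the union of the normal closures over the finite subsets -/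
def unionN (E Z : Set G) : Subgroup (FreeGroup (G × G)) where
  carrier := {r | ∃ F : Set G, F.Finite ∧ F ⊆ Z ∧ r ∈ Subgroup.normalClosure (rels E F)}
  mul_mem' := by
    rintro a b ⟨F, hF, hFZ, ha⟩ ⟨F', hF', hFZ', hb⟩
    refine ⟨F ∪ F', hF.union hF', Set.union_subset hFZ hFZ', mul_mem ?_ ?_⟩
    · exact Subgroup.normalClosure_mono (rels_mono Set.subset_union_left) ha
    · exact Subgroup.normalClosure_mono (rels_mono Set.subset_union_right) hb
  one_mem' := ⟨∅, Set.finite_empty, Set.empty_subset _, one_mem _⟩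
  inv_mem' := by
    rintro a ⟨F, hF, hFZ, ha⟩
    exact ⟨F, hF, hFZ, inv_mem ha⟩

lemma unionN_normal (E Z : Set G) : (unionN E Z).Normal := by
  refine ⟨?_⟩
  rintro a ⟨F, hF, hFZ, ha⟩ b
  exact ⟨F, hF, hFZ, Subgroup.normalClosure_normal.conj_mem a ha b⟩

lemma le_unionN (E Z : Set G) : Subgroup.normalClosure (rels E Z) ≤ unionN E Z := by
  have := unionN_normal E Z
  refine Subgroup.normalClosure_le_normal ?_
  rintro r ⟨g, hg, h, hh, k, hk, h1, h2, h3, rfl⟩
  refine ⟨{g, h, k}, by simp, ?_, Subgroup.subset_normalClosure ⟨g, by simp, h, by simp, k, by simp, h1, h2, h3, rfl⟩⟩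
  rintro x (rfl | rfl | rfl)
  · exact hg
  · exact hh
  · exact hk

theorem carr : CarrStatement := by
  intro G _ E Z g w w' hs
  let c0 : G → G → FreeGroup (G × G) := fun x y => FreeGroup.of (x, y)
  let N := Subgroup.normalClosure (rels E Z)
  let π : FreeGroup (G × G) →* FreeGroup (G × G) ⧸ N := QuotientGroup.mk' N
  have hc : Cocyc E Z (fun x y => π (c0 x y)) := by
    intro x hx y hy z hz h1 h2 h3
    rw [← map_mul]
    have h4 : c0 x y * c0 y z * (c0 x z)⁻¹ ∈ N :=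
      Subgroup.subset_normalClosure ⟨x, hx, y, hy, z, hz, h1, h2, h3, rfl⟩
    have h5 : π (c0 x y * c0 y z * (c0 x z)⁻¹) = 1 := (QuotientGroup.eq_one_iff _).2 h4
    rw [map_mul, map_inv] at h5
    exact mul_inv_eq_one.1 h5
  have h1 := hs _ _ hc
  rw [hol_map, hol_map] at h1
  have h2 : hol c0 g w * (hol c0 g w')⁻¹ ∈ N := by
    rw [← QuotientGroup.eq_one_iff]
    show π _ = 1
    rw [map_mul, map_inv, h1, mul_inv_cancel]
  obtain ⟨F, hF, hFZ, hm⟩ := le_unionN E Z h2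
  refine ⟨F, hF, hFZ, ?_⟩
  intro H _ c hcF
  let Φ : FreeGroup (G × G) →* H := FreeGroup.lift fun q => c q.1 q.2
  have h3 : Subgroup.normalClosure (rels E F) ≤ Φ.ker := by
    refine Subgroup.normalClosure_le_normal ?_
    rintro r ⟨x, hx, y, hy, z, hz, h1, h2, h3, rfl⟩
    show Φ _ = 1
    rw [map_mul, map_mul, map_inv, mul_inv_eq_one]
    simp only [Φ, FreeGroup.lift_apply_of]
    exact hcF x hx y hy z hz h1 h2 h3
  have h4 : Φ (hol c0 g w * (hol c0 g w')⁻¹) = 1 := h3 hm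
  rw [map_mul, map_inv, mul_inv_eq_one, ← hol_map, ← hol_map] at h4
  have h5 : (fun x y => Φ (c0 x y)) = c := by
    funext x y
    simp [Φ, c0]
  rw [h5] at h4
  exact h4

end Pool.Agent.Lib.MP_b1a3a4_al.MVS.HO.H65
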