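import Pool.Agent.Lib.MP_b1a3a4_al.MVS.HO.Iface

/-! # Module GEXT (10.12): the general extension lemma; helper65 -/

set_option autoImplicit false

namespace Pool.Agent.Lib.MP_b1a3a4_al.MVS.HO.H65

section

variable {G : Type} [Group G]

open Classical in
/-- the correction factor -/
noncomputable def uu (g : G → ℝ) (wb : G → List G) (t : ℝ) {H : Type} [Group H] (c : G → G → H)
    (v : G) : H := if t ≤ g v then hol c v (wb v) else 1

/-- the pushed cocycle -/
noncomputable def plus (g : G → ℝ) (b : G → G) (wb : G → List G) (p : G → G → List G) (t : ℝ)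
    {H : Type} [Group H] (c : G → G → H) (v w : G) : H :=
  uu g wb t c v * hol c (v * b v) (p v (v⁻¹ * w)) * (uu g wb t c w)⁻¹

/-- the iterates -/
noncomputable def itr (g : G → ℝ) (b : G → G) (wb : G → List G) (p : G → G → List G) (h C δ : ℝ)
    {H : Type} [Group H] (c : G → G → H) : ℕ → G → G → H
  | 0 => c
  | i + 1 => plus g b wb p (h - i * δ + C) (itr g b wb p h C δ c i)

end

theorem gext : GextStatement := by
  intro G _ E hE g b wb p δ C h₀ hδ hC h0 hi hii hiii h hh H _ c hc
  have hprod : ∀ v, ∀ x ∈ E, (v * b v) * (p v x).prod = (v * x) * b (v * x) := by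
    intro v x hx
    rw [(hi v x hx).1]
    group
  -- the pushed cocycle is a cocycle
  have hplus : ∀ (t : ℝ) (s : ℝ), t ≤ h₀ → ∀ c : G → G → H, Cocyc E (up g t) c →
      Cocyc E (up g (t - δ)) (plus g b wb p s c) := by
    intro t s ht c hc v hv w hw z hz h1 h2 h3
    have hx := h1
    have e1 : v * (v⁻¹ * w) = w := by group
    have e2 : (v⁻¹ * w) * (w⁻¹ * z) = v⁻¹ * z := by group
    have h4 := hii v (v⁻¹ * w) h1 (w⁻¹ * z) h2 (by rw [e2]; exact h3)
    rw [e1, e2] at h4
    have hv' : t - δ ≤ g v := hv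
    have hw' : t - δ ≤ g w := hw
    have hz' : t - δ ≤ g z := hz
    have e3 : v * (v⁻¹ * z) = z := by group
    rw [e3] at h4
    have h5 : t ≤ min h₀ (min (min (g v) (g w)) (g z) + δ) := by
      refine le_min ht ?_
      have : t - δ ≤ min (min (g v) (g w)) (g z) := le_min (le_min hv' hw') hz'
      linarith
    have h6 := h4 H c (hc.mono le_rfl (up_mono h5))
    rw [hol_append, hprod v _ h1, e1] at h6
    unfold plus
    rw [← h6]
    group
  have hsame : ∀ (t : ℝ) (c : G → G → H), Cocyc E (up g t) c →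
      ∀ v w, t + C ≤ g v → t + C ≤ g w → v⁻¹ * w ∈ E → plus g b wb p (t + C) c v w = c v w := by
    intro t c hc v w hv hw h1
    have e1 : v * (v⁻¹ * w) = w := by group
    have h2 := hiii v (v⁻¹ * w) h1 H c (hc.mono le_rfl (up_mono (by linarith)))
    rw [hol_append, (h0 v).1, hol_cons, e1] at h2
    unfold plus uu
    rw [if_pos hv, if_pos hw, h2]
    group
  -- the iterates
  have hcoc : ∀ i : ℕ, Cocyc E (up g (h - i * δ)) (itr g b wb p h C δ c i) := by
    intro i
    induction i with
    | zero => simpa [itr] using hc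
    | succ i ih =>
      have h1 := hplus (h - i * δ) (h - i * δ + C) (by
        have : (0 : ℝ) ≤ i * δ := by positivity
        linarith) _ ih
      have e : h - ((i + 1 : ℕ) : ℝ) * δ = h - i * δ - δ := by push_cast; ring
      rw [e]
      exact h1
  have hstab : ∀ (n i : ℕ), n ≤ i → ∀ v w, h - n * δ + C ≤ g v → h - n * δ + C ≤ g w →
      v⁻¹ * w ∈ E → itr g b wb p h C δ c i v w = itr g b wb p h C δ c n v w := by
    intro n i hni v w hv hw h1
    induction i, hni using Nat.le_induction with
    | base => rfl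
    | succ i hni ih =>
      rw [← ih]
      have h2 : (n : ℝ) * δ ≤ i * δ := by
        have : (n : ℝ) ≤ i := by exact_mod_cast hni
        nlinarith
      exact hsame (h - i * δ) _ (hcoc i) v w (by linarith) (by linarith) h1
  -- the stabilisation index
  let N : G → G → ℕ := fun v w => ⌈(h + C - min (g v) (g w)) / δ⌉₊
  have hN : ∀ v w, h - (N v w : ℝ) * δ + C ≤ min (g v) (g w) := by
    intro v w
    have h1 : (h + C - min (g v) (g w)) / δ ≤ (N v w : ℝ) := Nat.le_ceil _
    rw [div_le_iff₀ hδ] at h1
    linarith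
  let ci : G → G → H := fun v w => itr g b wb p h C δ c (N v w) v w
  have hci : ∀ v w, v⁻¹ * w ∈ E → ∀ i, N v w ≤ i → itr g b wb p h C δ c i v w = ci v w :=
    fun v w h1 i hi => hstab (N v w) i hi v w ((hN v w).trans (min_le_left _ _))
      ((hN v w).trans (min_le_right _ _)) h1
  have hcoci : Cocyc E Set.univ ci := by
    intro v _ w _ z _ h1 h2 h3
    let M := max (max (N v w) (N w z)) (N v z)
    have e1 := hci v w h1 M ((le_max_left _ _).trans (le_max_left _ _))
    have e2 := hci w z h2 M ((le_max_right _ _).trans (le_max_left _ _))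
    have e3 := hci v z h3 M (le_max_right _ _)
    rw [← e1, ← e2, ← e3]
    have hv : h - (M : ℝ) * δ ≤ min (g v) (g w) ∧ h - (M : ℝ) * δ ≤ min (g w) (g z) := by
      have k1 : ((N v w : ℕ) : ℝ) * δ ≤ M * δ := by
        have : ((N v w : ℕ) : ℝ) ≤ M := by
          exact_mod_cast (le_max_left _ _).trans (le_max_left _ _)
        nlinarith
      have k2 : ((N w z : ℕ) : ℝ) * δ ≤ M * δ := by
        have : ((N w z : ℕ) : ℝ) ≤ M := by
          exact_mod_cast (le_max_right _ _).trans (le_max_left _ _)
        nlinarith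
      have := hN v w
      have := hN w z
      constructor <;> linarith
    exact hcoc M v (hv.1.trans (min_le_left _ _)) w (hv.1.trans (min_le_right _ _)) z
      (hv.2.trans (min_le_right _ _)) h1 h2 h3
  obtain ⟨f, hf⟩ := hE.sc H ci hcoci
  refine ⟨f, fun v hv w hw h1 => ?_⟩
  rw [← hf v (Set.mem_univ _) w (Set.mem_univ _) h1]
  have hv' : h + C ≤ g v := hv
  have hw' : h + C ≤ g w := hw
  exact (hstab 0 (N v w) (Nat.zero_le _) v w (by simpa using hv') (by simpa using hw') h1).symm

end Pool.Agent.Lib.MP_b1a3a4_al.MVS.HO.H65
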