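import Pool.Agent.Lib.MP_b1a3a4_al.MVS.HO.Iface

/-! # Modules H2P (10.14) and LB (10.15); helper65 -/

set_option autoImplicit false

open Filter Topology

namespace Pool.Agent.Lib.MP_b1a3a4_al.MVS.HO.H65

/-- a lower bound for finitely many finite sets -/
lemma exists_lower {G : Type} [Group G] (χ : Chr G) {F : Set G} (hF : F.Finite) :
    ∃ C : ℝ, 0 ≤ C ∧ F ⊆ up (val χ) (-C) := by
  obtain ⟨m, hm⟩ := (hF.image (val χ)).bddBelow
  refine ⟨max 0 (-m), le_max_left _ _, fun z hz => ?_⟩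
  rw [mem_up]
  have h1 := hm ⟨z, hz, rfl⟩
  have h2 := le_max_right 0 (-m)
  linarith

theorem h2p (hcarr : CarrStatement) : H2pStatement := by
  classical
  intro G _ E hE χ D₀ ⟨b₀, hb₀⟩ hHS₀
  -- nonnegative lag
  obtain ⟨D, hD, hHS⟩ : ∃ D : ℝ, 0 ≤ D ∧ HS χ E D :=
    ⟨max 0 D₀, le_max_left _ _, hHS₀.mono (le_max_right _ _)⟩
  -- a high power
  obtain ⟨n, hn⟩ := exists_nat_ge ((2 * D + 1) / val χ b₀)
  rw [div_le_iff₀ hb₀] at hn
  obtain ⟨b, hb⟩ : ∃ b : G, 2 * D + 1 ≤ val χ b := ⟨b₀ ^ n, by rw [val_pow]; exact hn⟩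
  -- the word for b
  obtain ⟨wb, hwb, hwbp⟩ := hE.conn b
  -- the words p x
  have hp : ∀ x : G, ∃ w : List G, InPath E (up (val χ) (val χ b + min 0 (val χ x) - D)) b w ∧
      b * w.prod = x * b := by
    intro x
    have h1 := hHS.1 (val χ b + min 0 (val χ x) - D) b (x * b)
      (by have := min_le_left 0 (val χ x); linarith)
      (by have := min_le_right 0 (val χ x); rw [val_mul]; linarith)
    refine (conn_iff ?_).1 h1
    rw [mem_up]
    have := min_le_left 0 (val χ x); linarith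
  choose p hp1 hp2 using hp
  have hpp : ∀ x, (p x).prod = b⁻¹ * x * b := by
    intro x
    rw [mul_assoc, ← hp2 x]; group
  -- carriers
  have hcar : ∀ x : G, ∃ C : ℝ, 0 ≤ C ∧ (x ∈ E → SameHol E (up (val χ) (-C)) 1 (wb ++ p x) (x :: wb)) := by
    intro x
    by_cases hx : x ∈ E
    · have h1 : SameHol E Set.univ 1 (wb ++ p x) (x :: wb) := by
        refine hE.sameHol ?_ ?_ ?_
        · intro y hy
          rcases List.mem_append.1 hy with h | h
          · exact hwb y h
          · exact (hp1 x).letters y h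
        · intro y hy
          rcases List.mem_cons.1 hy with rfl | h
          · exact hx
          · exact hwb y h
        · rw [List.prod_append, List.prod_cons, hwbp, hp2 x]
      obtain ⟨F, hF, _, hFs⟩ := hcarr G _ _ _ _ _ h1
      obtain ⟨C, hC, hFC⟩ := exists_lower χ hF
      exact ⟨C, hC, fun _ => hFs.mono le_rfl hFC⟩
    · exact ⟨0, le_rfl, fun h => absurd h hx⟩
  choose Cx hCx0 hCx using hcar
  obtain ⟨Cw, hCw0, hCw⟩ : ∃ C : ℝ, 0 ≤ C ∧ InPath E (up (val χ) (-C)) 1 wb := by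
    have hfin : ({z | ∃ u, u <+: wb ∧ z = (1 : G) * u.prod} : Set G).Finite := by
      have h1 : ({z | ∃ u, u <+: wb ∧ z = (1 : G) * u.prod} : Set G) =
          (fun u : List G => (1 : G) * u.prod) '' {u | u ∈ wb.inits} := by
        ext z
        simp only [Set.mem_ofPred_eq, Set.mem_image, List.mem_inits]
        constructor
        · rintro ⟨u, hu, rfl⟩; exact ⟨u, hu, rfl⟩
        · rintro ⟨u, hu, rfl⟩; exact ⟨u, hu, rfl⟩
      rw [h1]
      exact (List.finite_toSet _).image _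
    obtain ⟨C, hC, hFC⟩ := exists_lower χ hfin
    exact ⟨C, hC, inPath_iff.2 ⟨hwb, fun u hu => hFC ⟨u, hu, rfl⟩⟩⟩
  obtain ⟨C, hCw', hCx'⟩ : ∃ C : ℝ, Cw ≤ C ∧ ∀ x ∈ E, Cx x ≤ C := by
    obtain ⟨M, hM⟩ := (hE.fin.image Cx).bddAbove
    exact ⟨max Cw M, le_max_left _ _, fun x hx => (hM ⟨x, hx, rfl⟩).trans (le_max_right _ _)⟩
  refine ⟨b, wb, p, 1, C, one_pos, hCw0.trans hCw', hwbp,
    hCw.mono le_rfl (up_mono (by linarith)), fun x hx => ⟨hpp x, ?_⟩, ?_, fun x hx => ?_⟩
  · refine (hp1 x).mono le_rfl (up_mono ?_)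
    linarith
  · intro x hx y hy hxy
    set m := min (min 0 (val χ x)) (val χ (x * y)) with hm
    have hm0 : m ≤ 0 := (min_le_left _ _).trans (min_le_left _ _)
    have hmx : m ≤ val χ x := (min_le_left _ _).trans (min_le_right _ _)
    have hmxy : m ≤ val χ (x * y) := min_le_right _ _
    have hmy : val χ (x * y) = val χ x + val χ y := val_mul χ x y
    have h1 : SameHol E (up (val χ) (val χ b + m - 2 * D)) b (p x ++ p y) (p (x * y)) := by
      refine sameHol_of_cob (Z₁ := up (val χ) (val χ b + m - D)) ?_ ?_ ?_ ?_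
      · intro H _ c hc
        have := hHS.2 _ H c hc
        refine this.mono le_rfl (up_mono ?_)
        linarith
      · rw [inPath_append]
        refine ⟨(hp1 x).mono le_rfl (up_mono ?_), ?_⟩
        · have : m ≤ min 0 (val χ x) := le_min hm0 hmx
          linarith
        · rw [hp2 x]
          refine (hp1 y).translate x (fun z hz => ?_)
          rw [mem_up] at hz ⊢
          rw [val_mul]
          have : m - val χ x ≤ min 0 (val χ y) := le_min (by linarith) (by linarith)
          linarith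
      · refine (hp1 (x * y)).mono le_rfl (up_mono ?_)
        have : m ≤ min 0 (val χ (x * y)) := le_min hm0 hmxy
        linarith
      · rw [List.prod_append, hpp, hpp, hpp]; group
    exact h1.mono le_rfl (up_mono (by linarith))
  · exact (hCx x hx).mono le_rfl (up_mono (by have := hCx' x hx; linarith))

theorem lb (hp : P2hStatement) (hh : H2pStatement) : LbStatement := by
  intro G _ E hE χ ψ ⟨b, hb0, hb⟩ c₁ hHS
  have key : ∃ D : ℝ, ∀ lam ∈ Set.Icc (-c₁) c₁, HS (χ + lam • ψ) E D := by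
    refine (isCompact_Icc (a := -c₁) (b := c₁)).induction_on
      (p := fun s => ∃ D : ℝ, ∀ lam ∈ s, HS (χ + lam • ψ) E D) ?_ ?_ ?_ ?_
    · exact ⟨0, fun lam h => absurd h (Set.notMem_empty _)⟩
    · rintro s t hst ⟨D, hD⟩
      exact ⟨D, fun lam h => hD lam (hst h)⟩
    · rintro s t ⟨D, hD⟩ ⟨D', hD'⟩
      refine ⟨max D D', fun lam h => ?_⟩
      rcases h with h | h
      · exact (hD lam h).mono (le_max_left _ _)
      · exact (hD' lam h).mono (le_max_right _ _)
    · intro lam hlam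
      obtain ⟨D, hD⟩ := hHS lam (abs_le.2 hlam)
      have hP := hh G E hE (χ + lam • ψ) D ⟨b, by rw [val_add, val_smul, hb0]; simpa using hb⟩ hD
      obtain ⟨ε, D', hε, hD'⟩ := hp G E hE (χ + lam • ψ) ψ hP
      refine ⟨Metric.ball lam ε, mem_nhdsWithin_of_mem_nhds (Metric.ball_mem_nhds lam hε), D', ?_⟩
      intro μ hμ
      have h1 := hD' (μ - lam) (by rwa [Metric.mem_ball, Real.dist_eq] at hμ)
      have h2 : χ + lam • ψ + (μ - lam) • ψ = χ + μ • ψ := by
        rw [add_assoc, ← add_smul]; congr 2; ring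
      rwa [h2] at h1
  obtain ⟨D, hD⟩ := key
  exact ⟨max 0 D, le_max_left _ _, fun lam hl => (hD lam (abs_le.1 hl)).mono (le_max_right _ _)⟩

end Pool.Agent.Lib.MP_b1a3a4_al.MVS.HO.H65
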