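import Pool.Agent.Lib.MP_b1a3a4_al.MVS.HO.Iface

/-! # Module P2H (10.13): push data give half-space statements, uniformly nearby; helper65 -/

set_option autoImplicit false

namespace Pool.Agent.Lib.MP_b1a3a4_al.MVS.HO.H65

section

variable {G : Type} [Group G]

/-- push data with explicit constants and words -/
structure PD (E : Set G) (μ : Chr G) (b : G) (wb : List G) (p : G → List G) (δ C : ℝ) : Prop where
  wbp : wb.prod = b
  wbi : InPath E (up (val μ) (-C)) 1 wb
  pp : ∀ x ∈ E, (p x).prod = b⁻¹ * x * b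
  pi : ∀ x ∈ E, InPath E (up (val μ) (min 0 (val μ x) + δ)) b (p x)
  pc : ∀ x ∈ E, ∀ y ∈ E, x * y ∈ E →
      SameHol E (up (val μ) (min (min 0 (val μ x)) (val μ (x * y)) + δ)) b
        (p x ++ p y) (p (x * y))
  pb : ∀ x ∈ E, SameHol E (up (val μ) (-C)) 1 (wb ++ p x) (x :: wb)

/-- the set of vertices of a path is finite -/
lemma inPath_fin {E Z : Set G} {g : G} {w : List G} (h : InPath E Z g w) :
    ∃ F : Set G, F.Finite ∧ F ⊆ Z ∧ InPath E F g w := by
  induction w generalizing g with
  | nil => exact ⟨{g}, Set.finite_singleton g, by simpa using h, by simp⟩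
  | cons x w ih =>
    obtain ⟨F, hF, hFZ, hFi⟩ := ih h.2.2
    refine ⟨insert g F, hF.insert g, Set.insert_subset h.1 hFZ, Set.mem_insert _ _, h.2.1, ?_⟩
    exact hFi.mono le_rfl (Set.subset_insert _ _)

/-- the cocycle part -/
theorem ext_of_pd (hg : GextStatement) {E : Set G} (hE : GoodScale E) {μ : Chr G} {b : G}
    {wb : List G} {p : G → List G} {δ C : ℝ} (hδ : 0 < δ) (hC : 0 ≤ C) (P : PD E μ b wb p δ C)
    (h : ℝ) (H : Type) [Group H] (c : G → G → H) (hc : Cocyc E (up (val μ) h) c) :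
    Cob E (up (val μ) (h + C)) c := by
  refine hg G E hE (val μ) (fun _ => b) (fun _ => wb) (fun _ x => p x) δ C h hδ hC ?_ ?_ ?_ ?_ h
    le_rfl H c hc
  · intro v
    refine ⟨P.wbp, ?_⟩
    have := P.wbi.translate v (Z' := up (val μ) (val μ v - C)) (fun x hx => by
      rw [mem_up] at hx ⊢
      rw [val_mul]; linarith)
    rwa [mul_one] at this
  · intro v x hx
    refine ⟨P.pp x hx, ?_⟩
    refine (P.pi x hx).translate v (fun z hz => ?_)
    rw [mem_up] at hz ⊢
    rw [val_mul, val_mul]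
    refine (min_le_right _ _).trans ?_
    have h1 : min (val μ v) (val μ v + val μ x) = val μ v + min 0 (val μ x) := by
      rw [← min_add_add_left, add_zero]
    rw [h1]
    linarith
  · intro v x hx y hy hxy
    refine (P.pc x hx y hy hxy).translate v (fun z hz => ?_)
    rw [mem_up] at hz ⊢
    rw [val_mul μ v z, val_mul μ v x, val_mul μ v (x * y)]
    refine (min_le_right _ _).trans ?_
    have h1 : min (min (val μ v) (val μ v + val μ x)) (val μ v + val μ (x * y)) =
        val μ v + min (min 0 (val μ x)) (val μ (x * y)) := by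
      rw [← min_add_add_left, ← min_add_add_left, add_zero]
    rw [h1]
    linarith
  · intro v x hx
    have := (P.pb x hx).translate v (Z' := up (val μ) (val μ v - C)) (fun z hz => by
      rw [mem_up] at hz ⊢
      rw [val_mul]; linarith)
    rwa [mul_one] at this

/-- pushing a connection by `b` -/
theorem push_conn {E : Set G} {μ : Chr G} {b : G} {wb : List G} {p : G → List G} {δ C : ℝ}
    (P : PD E μ b wb p δ C) {t : ℝ} {u v : G} (h : Conn E (up (val μ) t) u v) :
    Conn E (up (val μ) (t + δ)) (u * b) (v * b) := by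
  induction h with
  | refl => exact Conn.rfl'
  | @tail y z _ hbc ih =>
    refine ih.trans ?_
    have h1 := (P.pi _ hbc.2.2).translate y (Z' := up (val μ) (t + δ)) (fun q hq => by
      rw [mem_up] at hq ⊢
      have h2 : t ≤ val μ y := hbc.1
      have h3 : t ≤ val μ z := hbc.2.1
      rw [val_mul]
      have h4 : val μ (y⁻¹ * z) = val μ z - val μ y := by
        rw [val_mul, val_inv]; ring
      rw [h4] at hq
      have h5 : t - val μ y ≤ min 0 (val μ z - val μ y) := le_min (by linarith) (by linarith)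
      linarith)
    refine (conn_iff h1.start).2 ⟨_, h1, ?_⟩
    rw [P.pp _ hbc.2.2]
    group

theorem conn_of_pd {E : Set G} (hE : GoodScale E) {μ : Chr G} {b : G}
    {wb : List G} {p : G → List G} {δ C : ℝ} (hδ : 0 < δ) (P : PD E μ b wb p δ C)
    (h : ℝ) (n : ℕ) : ∀ u v : G, h ≤ val μ u → h ≤ val μ v →
      Conn E (up (val μ) (h - n * δ)) u v → Conn E (up (val μ) (h - C)) u v := by
  have hC : 0 ≤ C := by
    have h1 := P.wbi.start
    rw [mem_up, val_one] at h1
    linarith
  have hb : 0 ≤ val μ b := by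
    have h1 := (P.pi 1 hE.one).start
    rw [mem_up, val_one, min_self] at h1
    linarith
  have hw : ∀ u, h ≤ val μ u → Conn E (up (val μ) (h - C)) u (u * b) := by
    intro u hu
    have h1 := P.wbi.translate u (Z' := up (val μ) (h - C)) (fun x hx => by
      rw [mem_up] at hx ⊢
      rw [val_mul]; linarith)
    rw [mul_one] at h1
    exact (conn_iff h1.start).2 ⟨_, h1, by rw [P.wbp]⟩
  induction n with
  | zero =>
    intro u v hu hv hc
    exact hc.mono le_rfl (up_mono (by simp [hC]))
  | succ n ih =>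
    intro u v hu hv hc
    have h1 := push_conn P hc
    have e : h - ((n + 1 : ℕ) : ℝ) * δ + δ = h - n * δ := by push_cast; ring
    rw [e] at h1
    have h2 := ih (u * b) (v * b) (by rw [val_mul]; linarith) (by rw [val_mul]; linarith) h1
    exact ((hw u hu).trans h2).trans ((hw v hv).symm hE.inv)

theorem hs_of_pd (hg : GextStatement) {E : Set G} (hE : GoodScale E) {μ : Chr G} {b : G}
    {wb : List G} {p : G → List G} {δ C : ℝ} (hδ : 0 < δ) (hC : 0 ≤ C) (P : PD E μ b wb p δ C) :
    HS μ E C := by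
  refine ⟨fun h u v hu hv => ?_, fun h H _ c hc => ext_of_pd hg hE hδ hC P h H c hc⟩
  obtain ⟨w, hw, hwp⟩ := hE.conn (u⁻¹ * v)
  have h1 : InPath E Set.univ u w := inPath_iff.2 ⟨hw, fun _ _ => Set.mem_univ _⟩
  obtain ⟨F, hF, _, hFi⟩ := inPath_fin h1
  obtain ⟨m, hm⟩ := (hF.image (val μ)).bddBelow
  obtain ⟨n, hn⟩ := exists_nat_ge ((h + C - m) / δ)
  rw [div_le_iff₀ hδ] at hn
  have h2 : InPath E (up (val μ) (h + C - n * δ)) u w := hFi.mono le_rfl (fun z hz => by
    rw [mem_up]
    have := hm ⟨z, hz, rfl⟩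
    linarith)
  have h3 : Conn E (up (val μ) (h + C - n * δ)) u v :=
    (conn_iff h2.start).2 ⟨w, h2, by rw [hwp]; group⟩
  have h4 := conn_of_pd hE hδ P (h + C) n u v hu hv h3
  rwa [add_sub_cancel_right] at h4

open Filter Topology

lemma ev_sub (χ ψ : Chr G) {F : Set G} (hF : F.Finite) {f : ℝ → ℝ} (hf : Continuous f)
    (h : ∀ z ∈ F, f 0 < val χ z) : ∀ᶠ lam in 𝓝 (0 : ℝ), F ⊆ up (val (χ + lam • ψ)) (f lam) := by
  have h1 : ∀ z ∈ F, ∀ᶠ lam in 𝓝 (0 : ℝ), f lam < val χ z + lam * val ψ z := by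
    intro z hz
    refine ContinuousAt.eventually_lt hf.continuousAt ?_ ?_
    · fun_prop
    · simpa using h z hz
  have h2 := (Filter.eventually_all_finite hF).2 h1
  filter_upwards [h2] with lam hl z hz
  rw [mem_up, val_add, val_smul]
  exact (hl z hz).le

theorem ev_pd (hcarr : CarrStatement) {E : Set G} (hE : GoodScale E) (χ ψ : Chr G) {b : G}
    {wb : List G} {p : G → List G} {δ C : ℝ} (hδ : 0 < δ) (P : PD E χ b wb p δ C) :
    ∀ᶠ lam in 𝓝 (0 : ℝ), PD E (χ + lam • ψ) b wb p (δ / 2) (C + 1) := by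
  have e1 : ∀ᶠ lam in 𝓝 (0 : ℝ), InPath E (up (val (χ + lam • ψ)) (-(C + 1))) 1 wb := by
    obtain ⟨F, hF, hFZ, hFi⟩ := inPath_fin P.wbi
    filter_upwards [ev_sub χ ψ hF (f := fun _ => -(C + 1)) continuous_const (fun z hz => by
      have := hFZ hz
      rw [mem_up] at this
      linarith)] with lam hl
    exact hFi.mono le_rfl hl
  have e2 : ∀ᶠ lam in 𝓝 (0 : ℝ), ∀ x ∈ E,
      InPath E (up (val (χ + lam • ψ)) (min 0 (val (χ + lam • ψ) x) + δ / 2)) b (p x) := by
    rw [Filter.eventually_all_finite hE.fin]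
    intro x hx
    obtain ⟨F, hF, hFZ, hFi⟩ := inPath_fin (P.pi x hx)
    filter_upwards [ev_sub χ ψ hF (f := fun lam => min 0 (val χ x + lam * val ψ x) + δ / 2)
      (by fun_prop) (fun z hz => by
        have := hFZ hz
        rw [mem_up] at this
        simp only [zero_mul, add_zero]
        linarith)] with lam hl
    rw [val_add, val_smul]
    exact hFi.mono le_rfl hl
  have e3 : ∀ᶠ lam in 𝓝 (0 : ℝ), ∀ x ∈ E, ∀ y ∈ E, x * y ∈ E →
      SameHol E (up (val (χ + lam • ψ)) (min (min 0 (val (χ + lam • ψ) x))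
        (val (χ + lam • ψ) (x * y)) + δ / 2)) b (p x ++ p y) (p (x * y)) := by
    rw [Filter.eventually_all_finite hE.fin]
    intro x hx
    rw [Filter.eventually_all_finite hE.fin]
    intro y hy
    by_cases hxy : x * y ∈ E
    · obtain ⟨F, hF, hFZ, hFi⟩ := hcarr G _ _ _ _ _ (P.pc x hx y hy hxy)
      filter_upwards [ev_sub χ ψ hF (f := fun lam => min (min 0 (val χ x + lam * val ψ x))
        (val χ (x * y) + lam * val ψ (x * y)) + δ / 2)
        (by fun_prop) (fun z hz => by
          have := hFZ hz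
          rw [mem_up] at this
          simp only [zero_mul, add_zero]
          linarith)] with lam hl
      intro _
      rw [val_add, val_smul, val_add, val_smul]
      exact hFi.mono le_rfl hl
    · exact Filter.Eventually.of_forall fun lam h => absurd h hxy
  have e4 : ∀ᶠ lam in 𝓝 (0 : ℝ), ∀ x ∈ E,
      SameHol E (up (val (χ + lam • ψ)) (-(C + 1))) 1 (wb ++ p x) (x :: wb) := by
    rw [Filter.eventually_all_finite hE.fin]
    intro x hx
    obtain ⟨F, hF, hFZ, hFi⟩ := hcarr G _ _ _ _ _ (P.pb x hx)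
    filter_upwards [ev_sub χ ψ hF (f := fun _ => -(C + 1)) continuous_const (fun z hz => by
      have := hFZ hz
      rw [mem_up] at this
      linarith)] with lam hl
    exact hFi.mono le_rfl hl
  filter_upwards [e1, e2, e3, e4] with lam h1 h2 h3 h4
  exact ⟨P.wbp, h1, P.pp, h2, h3, h4⟩

end

theorem p2h (hg : GextStatement) (hcarr : CarrStatement) : P2hStatement := by
  intro G _ E hE χ ψ hP
  obtain ⟨b, wb, p, δ, C, hδ, hC, h1, h2, h3, h4, h5⟩ := hP
  have P : PD E χ b wb p δ C := ⟨h1, h2, fun x hx => (h3 x hx).1, fun x hx => (h3 x hx).2, h4, h5⟩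
  have h := ev_pd hcarr hE χ ψ hδ P
  rw [Metric.eventually_nhds_iff] at h
  obtain ⟨ε, hε, hh⟩ := h
  refine ⟨ε, C + 1, hε, fun lam hl => ?_⟩
  exact hs_of_pd hg hE (by linarith) (by linarith) (hh (by simpa [Real.dist_eq] using hl))

end Pool.Agent.Lib.MP_b1a3a4_al.MVS.HO.H65
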